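import Pool.Agent.N38.ULSE.Plane

/-!
# Zero-absent uniform colourings of symmetric designs do not exist for all parameters

A design with a `0`-ULSE `l`-colouring has colour classes of equal size `v / l`, so `l` divides
`v`. The equation (∗) `v = l (l - 2) k / ((l - 1) ^ 2 - k)` does not imply this. Parameters which
satisfy (∗), for which symmetric designs exist, but no symmetric design has a `0`-ULSE
`l`-colouring: `(v, k, l) = (16, 10, 6)`, and for every prime power `m` the parameters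
`(m ^ 4 + m ^ 2 + 1, m ^ 4, m ^ 3 + 1)` of the complements of projective planes of order `m ^ 2`.
-/

set_option autoImplicit false

open Finset Pool.Agent.N38.ULSE

namespace Pool.Agent.Results.MP_9fbb3c_co.NotEveryParameterSet

/-- The equation (∗): `v = l (l - 2) k / ((l - 1) ^ 2 - k)` (with a nonzero denominator). -/
def Star (v k l : ℕ) : Prop :=
  ((l : ℚ) - 1) ^ 2 - k ≠ 0 ∧ (v : ℚ) = l * (l - 2) * k / (((l : ℚ) - 1) ^ 2 - k)

/-- Some symmetric design with `v` points and block size `k` exists. -/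
def Exists (v k : ℕ) : Prop :=
  ∃ (V ι : Type) (_ : Fintype V) (_ : Fintype ι) (_ : DecidableEq V) (B : ι → Finset V)
    (lam : ℕ), IsSymmetric B v k lam

/-- Some symmetric design with `v` points and block size `k` has a `0`-ULSE `l`-colouring. -/
def Coloured (v k l : ℕ) : Prop :=
  ∃ (V ι : Type) (_ : Fintype V) (_ : Fintype ι) (_ : DecidableEq V) (B : ι → Finset V)
    (lam : ℕ) (f : V → Fin l), IsSymmetric B v k lam ∧ IsULSE B k l f

private theorem lam_pos {V ι : Type} [Fintype V] [Fintype ι] [DecidableEq V] {B : ι → Finset V}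
    {v k lam : ℕ} (h : IsSymmetric B v k lam) : 0 < lam := by
  classical
  have hv : 0 < v := by have := h.1.lt; omega
  have : 0 < Fintype.card ι := h.2 ▸ hv
  obtain ⟨i⟩ := Fintype.card_pos_iff.1 this
  have hk : 1 < (B i).card := by rw [h.1.card_block]; have := h.1.two_le; omega
  obtain ⟨x, hx, y, hy, hxy⟩ := one_lt_card.1 hk
  rw [← h.1.card_pair x y hxy]
  exact card_pos.2 ⟨i, by simp [hx, hy]⟩

/-- If a symmetric design is coloured then `l` divides `v`, and `l ≥ 1`. -/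
theorem dvd_of_coloured {v k l : ℕ} (h : Coloured v k l) : l ∣ v := by
  obtain ⟨V, ι, _, _, _, B, lam, f, hB, hf⟩ := h
  have hv : 0 < Fintype.card V := by rw [hB.1.card_points]; have := hB.1.lt; omega
  obtain ⟨x⟩ := Fintype.card_pos_iff.1 hv
  exact ⟨_, (card_class hB.1 hf (lam_pos hB) (f x)).symm⟩

/-- (1) In every symmetric design (indeed in every BIBD with `lam > 0`) with a `0`-ULSE
`l`-colouring all colour classes have the same size `v / l`; in particular `l ∣ v`.
(2) `(v, k, l) = (16, 10, 6)` satisfies (∗), symmetric designs exist, none is coloured.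
(3) The same for `(m ^ 4 + m ^ 2 + 1, m ^ 4, m ^ 3 + 1)` for every prime power `m`.
(4) The negated form of Q1. -/
theorem result :
    (∀ (V ι : Type) [Fintype V] [Fintype ι] [DecidableEq V] (B : ι → Finset V) (v k lam l : ℕ)
      (f : V → Fin l), IsBIBD B v k lam → 0 < lam → IsULSE B k l f →
        ∀ c, l * (univ.filter (fun x => f x = c)).card = v) ∧
    (Star 16 10 6 ∧ Exists 16 10 ∧ ¬ Coloured 16 10 6) ∧
    (∀ m : ℕ, IsPrimePow m → Star (m ^ 4 + m ^ 2 + 1) (m ^ 4) (m ^ 3 + 1) ∧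
      Exists (m ^ 4 + m ^ 2 + 1) (m ^ 4) ∧
      ¬ Coloured (m ^ 4 + m ^ 2 + 1) (m ^ 4) (m ^ 3 + 1)) ∧
    (∃ v k l : ℕ, 0 < v ∧ 0 < k ∧ 0 < l ∧ Star v k l ∧ Exists v k ∧ ¬ Coloured v k l) := by
  have h16 : Star 16 10 6 ∧ Exists 16 10 ∧ ¬ Coloured 16 10 6 := by
    refine ⟨⟨by norm_num, by norm_num⟩, ⟨_, _, _, _, _, D16, 6, D16_design⟩, fun h => ?_⟩
    have := dvd_of_coloured h
    revert this
    decide
  refine ⟨fun V ι _ _ _ B v k lam l f hB hl hf c => card_class hB hf hl c, h16, ?_,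
    16, 10, 6, by norm_num, by norm_num, by norm_num, h16⟩
  intro m hm
  have hm2 : 2 ≤ m := hm.two_le
  refine ⟨⟨?_, ?_⟩, ?_, ?_⟩
  · push_cast
    have h1 : (2 : ℚ) ≤ m := by exact_mod_cast hm2
    have h2 : (m : ℚ) ^ 4 < (m : ℚ) ^ 6 := pow_lt_pow_right₀ (by linarith) (by norm_num)
    have h3 : ((m : ℚ) ^ 3 + 1 - 1) ^ 2 - (m : ℚ) ^ 4 = (m : ℚ) ^ 6 - (m : ℚ) ^ 4 := by ring
    rw [h3]
    linarith
  · push_cast
    have h1 : (2 : ℚ) ≤ m := by exact_mod_cast hm2
    have h2 : (m : ℚ) ^ 4 < (m : ℚ) ^ 6 := pow_lt_pow_right₀ (by linarith) (by norm_num)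
    have h3 : ((m : ℚ) ^ 3 + 1 - 1) ^ 2 - (m : ℚ) ^ 4 = (m : ℚ) ^ 6 - (m : ℚ) ^ 4 := by ring
    rw [h3, eq_div_iff (by linarith)]
    ring
  · obtain ⟨V, ι, i1, i2, i3, B, hB⟩ := exists_plane_design (m ^ 2) (hm.pow (by norm_num))
    have e1 : (m ^ 2) ^ 2 + m ^ 2 + 1 = m ^ 4 + m ^ 2 + 1 := by ring
    have e2 : (m ^ 2) ^ 2 = m ^ 4 := by ring
    rw [e2] at hB
    exact ⟨V, ι, i1, i2, i3, B, _, hB⟩
  · intro h
    have h1 := dvd_of_coloured h
    have h2 : m ^ 4 + m ^ 2 + 1 = (m ^ 3 + 1) * m + (m ^ 2 - m + 1) := by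
      have : m ≤ m ^ 2 := by nlinarith
      zify [this]
      ring
    rw [h2, (Nat.dvd_add_right (dvd_mul_right _ _))] at h1
    have h3 := Nat.le_of_dvd (by omega) h1
    have h4 : m ^ 2 < m ^ 3 := pow_lt_pow_right₀ (by omega) (by norm_num)
    omega

end Pool.Agent.Results.MP_9fbb3c_co.NotEveryParameterSet
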